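import Mathlib
import Pool.Agent.Helper56.MCF.Defs
import Pool.Agent.Helper56.MCF.Main

open Pool.Agent.Helper56.MCF

namespace Pool.Agent.Results.MP_1709b7_gt.SurfaceCase

/-- For `n = 2`, every codimension `q ≥ 2` and every curvature `c > 0` there is a smooth immersion
of the closed surface `S²` into the sphere `F^{2+q}(c)` which satisfies the pinching condition
`|A|² < α(|H|²)` and for which the conclusion of Q1 (a unique maximal mean curvature flow, which
converges to a round point or to a totally geodesic submanifold) fails: it is the Veronese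
immersion, with `H = 0` and `|A|² = 4c/3 < 2c = α(0)`, and the constant family is a flow on
`[0,∞)`. -/
theorem result (q : ℕ) (hq : 2 ≤ q) (c : ℝ) (hc : 0 < c) :
    ∃ F₀ : S2 → Amb 2 q, IsImmSphere c F₀ ∧ Pinched c F₀ ∧ (∀ p, H F₀ p = 0) ∧
      (∀ p, sqA F₀ p = 4 / 3 * c) ∧ IsFlow c F₀ ⊤ (fun _ => F₀) ∧ ¬ Dichotomy c F₀ :=
  main q hq c hc

end Pool.Agent.Results.MP_1709b7_gt.SurfaceCase
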